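import Mathlib
import Pool.Agent.X262.LOS.GoldR

set_option autoImplicit false

/-!
# Consecutive Goldbach partitions into almost primes

For every `N`, the partitions `2 N = m + (2 N - m)` into integers without prime factors `≤ X ^ (1 / r)` in arbitrary
short intervals (for instance with `m` near `N`): asymptotic number of the tuples of such `m` with prescribed
differences, Poisson law for the further ones, and the asymptotic number of the tuples of consecutive ones.
-/

namespace Pool.Agent.Results.MP_b5e119_nt.ConsecutivePartitions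

open Finset Filter

/-- all prime factors of `m` are larger than `X ^ (1 / r)` -/
def AlmostPrime (X r m : ℕ) : Prop := ∀ p : ℕ, p.Prime → p ∣ m → (X : ℝ) ^ (1 / (r : ℝ)) < p

/-- `2 N = m + (2 N - m)` is a partition into almost primes -/
def Part (X r N m : ℕ) : Prop := AlmostPrime X r m ∧ AlmostPrime X r (2 * N - m)

open Classical in
/-- the number of the residue classes `m` modulo `p` for which `p` divides `m + h` or
`2 N - (m + h)` for some `h ∈ H` -/
noncomputable def nu (N : ℕ) (H : Finset ℕ) (p : ℕ) : ℕ :=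
  ((range p).filter (fun m => ∃ h ∈ H, p ∣ m + h ∨ m + h ≡ 2 * N [MOD p])).card

/-- the expected density of the `m` for which all `m + h`, `h ∈ H`, are in partitions into almost
primes -/
noncomputable def density (X r N : ℕ) (H : Finset ℕ) : ℝ :=
  ∏ p ∈ (Icc 1 ⌊(X : ℝ) ^ (1 / (r : ℝ))⌋₊).filter Nat.Prime, (1 - (nu N H p : ℝ) / p)

/-- the density of the partitions into almost primes -/
noncomputable def W (X r N : ℕ) : ℝ :=
  ∏ p ∈ (Icc 1 ⌊(X : ℝ) ^ (1 / (r : ℝ))⌋₊).filter Nat.Prime,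
    (1 - (if p ∣ 2 * N then 1 else 2) / (p : ℝ))

open Classical in
/-- the number of the `m` in `(Z, Z + Y]` for which all `m + h`, `h ∈ H`, are in partitions of
`2 N` into almost primes -/
noncomputable def parts (X r N : ℕ) (H : Finset ℕ) (Z Y : ℕ) : ℕ :=
  ((Ioc Z (Z + Y)).filter (fun m => ∀ h ∈ H, Part X r N (m + h))).card

open Classical in
/-- the number of the `t` in `[1, T]`, not in `H`, for which `m + t` is in a partition -/
noncomputable def further (X r N : ℕ) (H : Finset ℕ) (T m : ℕ) : ℕ :=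
  ((Icc 1 T).filter (fun t => t ∉ H ∧ Part X r N (m + t))).card

open Classical in
/-- the number of the `m` in `(Z, Z + Y]` for which all `m + h`, `h ∈ H`, are in partitions of
`2 N` into almost primes and the number of the further ones in `(m, m + T]` is in `A` -/
noncomputable def partsWith (X r N : ℕ) (H : Finset ℕ) (T : ℕ) (A : Finset ℕ) (Z Y : ℕ) : ℕ :=
  ((Ioc Z (Z + Y)).filter (fun m => (∀ h ∈ H, Part X r N (m + h)) ∧ further X r N H T m ∈ A)).card

open Classical in
/-- the number of the `m` in `(Z, Z + Y]` for which the integers of `[m, m + max H]` which are in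
partitions of `2 N` into almost primes are exactly the `m + h`, `h ∈ H` -/
noncomputable def consecutive (X r N : ℕ) (H : Finset ℕ) (Z Y : ℕ) : ℕ :=
  ((Ioc Z (Z + Y)).filter (fun m => ∀ t, t ≤ H.sup id → (Part X r N (m + t) ↔ t ∈ H))).card

/-- the probability that a Poisson variable with mean `x` is in `A` -/
noncomputable def poisson (x : ℝ) (A : Finset ℕ) : ℝ :=
  ∑ j ∈ A, Real.exp (-x) * x ^ j / j.factorial

open Pool.Agent.X262.LOS Pool.Agent.H373R2.T7 Pool.Agent.W123.RP Pool.Agent.W123.RU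
open Pool.Agent.TH464.PO Pool.Agent.Y879.AP

lemma QH_iff (N : ℕ) (H : Finset ℕ) (p m : ℕ) (hp : p.Prime) :
    QH (QG (2 * N)) H p m ↔ ∃ h ∈ H, p ∣ m + h ∨ m + h ≡ 2 * N [MOD p] := by
  have hn1 : ¬ p ∣ 1 := fun h => hp.one_lt.ne' (Nat.dvd_one.1 h)
  unfold QH QG
  constructor
  · rintro ⟨h, hh, _, hd⟩
    exact ⟨h, hh, hd⟩
  · rintro ⟨h, hh, hd⟩
    exact ⟨h, hh, hn1, hd⟩

lemma nu_eq (N : ℕ) (H : Finset ℕ) (p : ℕ) (hp : p.Prime) : nuB (QH (QG (2 * N)) H) p = nu N H p := by
  unfold nuB nu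
  apply card_iff
  intro m _
  exact QH_iff N H p m hp

lemma density_eq (X r N : ℕ) (H : Finset ℕ) :
    density X r N H = Vq (QH (QG (2 * N)) H) ⌊(X : ℝ) ^ (1 / (r : ℝ))⌋₊ := by
  unfold density Vq pz
  refine Finset.prod_congr rfl fun p hp => ?_
  rw [nu_eq N H p (mem_filter.1 hp).2]

lemma W_eq (X r N : ℕ) : W X r N = Vq (QG (2 * N)) ⌊(X : ℝ) ^ (1 / (r : ℝ))⌋₊ := by
  unfold W Vq pz
  refine Finset.prod_congr rfl fun p hp => ?_
  rw [QG_nuB (2 * N) p (mem_filter.1 hp).2]
  split_ifs <;> simp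

lemma part_iff (X r N n : ℕ) (hn : n ≤ 2 * N) :
    Sf (QG (2 * N)) ⌊(X : ℝ) ^ (1 / (r : ℝ))⌋₊ n ↔ Part X r N n := by
  have hsub : ∀ p : ℕ, n ≡ 2 * N [MOD p] ↔ p ∣ 2 * N - n := fun p => Nat.modEq_iff_dvd' hn
  unfold Sf Part AlmostPrime QG
  constructor
  · intro h
    refine ⟨fun p hp hd => ?_, fun p hp hd => ?_⟩
    · by_contra hcon
      rw [not_lt] at hcon
      exact h p (mem_pz.2 ⟨Nat.le_floor hcon, hp⟩)
        ⟨fun h1 => hp.one_lt.ne' (Nat.dvd_one.1 h1), Or.inl hd⟩
    · by_contra hcon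
      rw [not_lt] at hcon
      exact h p (mem_pz.2 ⟨Nat.le_floor hcon, hp⟩)
        ⟨fun h1 => hp.one_lt.ne' (Nat.dvd_one.1 h1), Or.inr ((hsub p).2 hd)⟩
  · rintro ⟨h, h'⟩ p hp ⟨_, hd⟩
    rw [mem_pz] at hp
    have h2 := (Nat.le_floor_iff (by positivity)).1 hp.1
    rcases hd with hd | hd
    · have h1 := h p hp.2 hd
      linarith
    · have h1 := h' p hp.2 ((hsub p).1 hd)
      linarith

lemma base_iff (X r N : ℕ) (H : Finset ℕ) (m : ℕ) (hH : ∀ h ∈ H, m + h ≤ 2 * N) :
    Sf (QH (QG (2 * N)) H) ⌊(X : ℝ) ^ (1 / (r : ℝ))⌋₊ m ↔ ∀ h ∈ H, Part X r N (m + h) := by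
  rw [sf_QH]
  constructor
  · intro h1 h hh
    exact (part_iff X r N _ (hH h hh)).1 (h1 h hh)
  · intro h1 h hh
    exact (part_iff X r N _ (hH h hh)).2 (h1 h hh)

lemma parts_eq (X r N : ℕ) (H : Finset ℕ) (Z Y : ℕ) (hN : Z + Y + X ≤ 2 * N) (hH : ∀ h ∈ H, h ≤ X) :
    parts X r N H Z Y = Nb (QG (2 * N)) ⌊(X : ℝ) ^ (1 / (r : ℝ))⌋₊ H Z Y := by
  unfold parts Nb
  apply card_iff
  intro m hm
  rw [mem_Ioc] at hm
  rw [base_iff X r N H m (fun h hh => by have := hH h hh; omega)]

lemma further_eq (X r N : ℕ) (H : Finset ℕ) (T m : ℕ) (hT : m + T ≤ 2 * N) :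
    further X r N H T m = Nn (QG (2 * N)) ⌊(X : ℝ) ^ (1 / (r : ℝ))⌋₊ (Icc 1 T \ H) m := by
  classical
  unfold further Nn
  congr 1
  ext t
  rw [mem_filter, mem_filter, Finset.mem_sdiff, and_assoc]
  constructor
  · rintro ⟨h1, h2, h3⟩
    exact ⟨h1, h2, (part_iff X r N _ (by have := (mem_Icc.1 h1).2; omega)).2 h3⟩
  · rintro ⟨h1, h2, h3⟩
    exact ⟨h1, h2, (part_iff X r N _ (by have := (mem_Icc.1 h1).2; omega)).1 h3⟩

lemma partsWith_eq (X r N : ℕ) (H : Finset ℕ) (T : ℕ) (A : Finset ℕ) (Z Y : ℕ)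
    (hN : Z + Y + X ≤ 2 * N) (hH : ∀ h ∈ H, h ≤ X) (hT : T ≤ X) :
    partsWith X r N H T A Z Y = NA (QG (2 * N)) ⌊(X : ℝ) ^ (1 / (r : ℝ))⌋₊ H T A Z Y := by
  unfold partsWith NA
  apply card_iff
  intro m hm
  rw [mem_Ioc] at hm
  rw [base_iff X r N H m (fun h hh => by have := hH h hh; omega), further_eq X r N H T m (by omega)]

lemma poisson_zero (x : ℝ) : poisson x {0} = Real.exp (-x) := by
  unfold poisson
  rw [Finset.sum_singleton, pow_zero, mul_one, Nat.factorial_zero, Nat.cast_one, div_one]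

lemma consecutive_eq (X r N : ℕ) (H : Finset ℕ) (h0 : 0 ∈ H) (Z Y : ℕ) :
    consecutive X r N H Z Y = partsWith X r N H (H.sup id) {0} Z Y := by
  classical
  unfold consecutive partsWith
  apply card_iff
  intro m _
  rw [mem_singleton]
  unfold further
  rw [card_eq_zero, Finset.filter_eq_empty_iff]
  constructor
  · intro h1
    refine ⟨?_, ?_⟩
    · intro h hh
      exact (h1 h (Finset.le_sup (f := id) hh)).2 hh
    · rintro t ht ⟨h4, h5⟩
      rw [mem_Icc] at ht
      exact h4 ((h1 t ht.2).1 h5)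
  · rintro ⟨h1, h2⟩ t ht
    constructor
    · intro h3
      by_contra h4
      have ht0 : t ≠ 0 := by
        rintro rfl
        exact h4 h0
      exact h2 (mem_Icc.2 ⟨by omega, ht⟩) ⟨h4, h3⟩
    · exact h1 t

lemma further_mono (X r N : ℕ) (H : Finset ℕ) (T T' m : ℕ) (h : T ≤ T') :
    further X r N H T m ≤ further X r N H T' m := by
  classical
  unfold further
  apply card_le_card
  intro t ht
  rw [mem_filter, mem_Icc] at ht ⊢
  exact ⟨⟨ht.1.1, ht.1.2.trans h⟩, ht.2⟩

lemma with_mono (X r N : ℕ) (H : Finset ℕ) (T T' l : ℕ) (A : Finset ℕ) (Z Y : ℕ) (h : T ≤ T')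
    (hA : ∀ j ∈ A, j < l) : partsWith X r N H T' A Z Y ≤ partsWith X r N H T (range l) Z Y := by
  classical
  unfold partsWith
  apply card_le_card
  intro m hm
  rw [mem_filter] at hm ⊢
  refine ⟨hm.1, hm.2.1, ?_⟩
  rw [mem_range]
  exact lt_of_le_of_lt (further_mono X r N H T T' m h) (hA _ hm.2.2)

lemma poisson_small (l : ℕ) (ε : ℝ) (hε : 0 < ε) : ∃ C1 : ℝ, 0 ≤ C1 ∧ ∀ x : ℝ, C1 ≤ x →
    poisson x (range l) ≤ ε := by
  have h1 : Tendsto (fun x : ℝ => poisson x (range l)) atTop (nhds 0) := by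
    unfold poisson
    have h2 : Tendsto (fun x : ℝ => ∑ j ∈ range l, Real.exp (-x) * x ^ j / j.factorial) atTop
        (nhds (∑ j ∈ range l, (0 : ℝ))) := by
      apply tendsto_finsetSum
      intro j _
      have h3 := (Real.tendsto_pow_mul_exp_neg_atTop_nhds_zero j).div_const (j.factorial : ℝ)
      rw [zero_div] at h3
      refine h3.congr fun x => ?_
      rw [mul_comm]
    rwa [Finset.sum_const_zero] at h2
  obtain ⟨C1, hC1⟩ := (h1.eventually_le_const hε).exists_forall_of_atTop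
  exact ⟨max C1 0, le_max_right _ _, fun x hx => hC1 x ((le_max_left _ _).trans hx)⟩

lemma poisson_le (x : ℝ) (hx : 0 ≤ x) (l : ℕ) (A : Finset ℕ) (hA : ∀ j ∈ A, j < l) :
    0 ≤ poisson x A ∧ poisson x A ≤ poisson x (range l) := by
  unfold poisson
  refine ⟨Finset.sum_nonneg fun j _ => by positivity, ?_⟩
  apply Finset.sum_le_sum_of_subset_of_nonneg
  · intro j hj
    exact mem_range.2 (hA j hj)
  · intro j _ _
    positivity

lemma nu_lt (N : ℕ) (H : Finset ℕ) (p c : ℕ) (hc : c < p)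
    (h : ∀ h ∈ H, ¬ p ∣ c + h ∧ ¬ c + h ≡ 2 * N [MOD p]) : nu N H p < p := by
  classical
  unfold nu
  have h1 : (range p).filter (fun m => ∃ h ∈ H, p ∣ m + h ∨ m + h ≡ 2 * N [MOD p]) ⊂ range p := by
    rw [Finset.filter_ssubset]
    refine ⟨c, mem_range.2 hc, ?_⟩
    rintro ⟨x, hx, h2⟩
    rcases h2 with h2 | h2
    · exact (h x hx).1 h2
    · exact (h x hx).2 h2
  have h2 := card_lt_card h1
  rwa [card_range] at h2

lemma pair_adm (N d : ℕ) (hd : 2 ∣ d) (h3 : 3 ∣ d * N) (p : ℕ) (hp : p.Prime) :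
    nu N {0, d} p < p := by
  have hp2 := hp.two_le
  by_cases h2 : p = 2
  · subst h2
    apply nu_lt N {0, d} 2 1 (by norm_num)
    intro h hh
    rw [mem_insert, mem_singleton] at hh
    unfold Nat.ModEq
    rcases hh with rfl | rfl <;> constructor <;> omega
  by_cases hp3 : p = 3
  · subst hp3
    have h4 : 3 ∣ d ∨ 3 ∣ N := (Nat.prime_three.dvd_mul).1 h3
    by_cases h5 : 3 ∣ d
    · by_cases h6 : N % 3 = 2
      · apply nu_lt N {0, d} 3 2 (by norm_num)
        intro h hh
        rw [mem_insert, mem_singleton] at hh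
        unfold Nat.ModEq
        rcases hh with rfl | rfl <;> constructor <;> omega
      · apply nu_lt N {0, d} 3 1 (by norm_num)
        intro h hh
        rw [mem_insert, mem_singleton] at hh
        unfold Nat.ModEq
        rcases hh with rfl | rfl <;> constructor <;> omega
    · have h7 : 3 ∣ N := h4.resolve_left h5
      by_cases h6 : d % 3 = 1
      · apply nu_lt N {0, d} 3 1 (by norm_num)
        intro h hh
        rw [mem_insert, mem_singleton] at hh
        unfold Nat.ModEq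
        rcases hh with rfl | rfl <;> constructor <;> omega
      · apply nu_lt N {0, d} 3 2 (by norm_num)
        intro h hh
        rw [mem_insert, mem_singleton] at hh
        unfold Nat.ModEq
        rcases hh with rfl | rfl <;> constructor <;> omega
  · have hp5 : 5 ≤ p := by
      by_contra hcon
      have : p = 4 := by omega
      subst this
      exact absurd hp (by norm_num)
    have h4 := (perB_QH (QG (2 * N)) 2 (QG_perB (2 * N)) {0, d}).few p hp
    rw [nu_eq N _ p hp] at h4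
    have h5 : ({0, d} : Finset ℕ).card ≤ 2 := card_le_two
    omega

/-- **Consecutive Goldbach partitions into almost primes.** Let `k, l ≥ 0`, `E, C ≥ 0`, `ε, θ > 0`. There is
`r₀` such that for all `r ≥ r₀`, all large `X`, all `N` with `2 N ≤ X ^ E` and all `Z, Y` with `Y ≥ X ^ θ` and
`Z + Y + X ≤ 2 N`, with `W = W X r N` (`≥ v / log² X`, `v > 0` an absolute constant):

for all sets `H ⊆ [0, X]` with at most `k` elements, with `D = Y density X r N H`,

(1) the number of the `m` in `(Z, Z + Y]` for which all `2 N = (m + h) + (2 N - m - h)`, `h ∈ H`, are partitions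
into almost primes is `D`, up to `ε D`;

(2) for these `m` the number of the further partitions with a member in `(m, m + T]` has the Poisson distribution
with mean `T W`, up to `ε D` for each set `A` of numbers, for all `T ≤ C / W`; for `A ⊆ {0, ..., l - 1}` for all
`T ≤ X`;

(3) if `0 ∈ H` and `T = max H` satisfies `T W ≤ C`, the number of the `m` in `(Z, Z + Y]` for which the integers of
`[m, m + T]` which are in partitions into almost primes are exactly the `m + h`, `h ∈ H`, is `D exp (- T W)`, up to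
the relative error `ε`;

and (4) `density X r N {0, d} > 0` if `d` is even and `3 ∣ d N`. -/
theorem result : ∃ v : ℝ, 0 < v ∧ ∀ (k l : ℕ) (E C ε θ : ℝ), 0 ≤ E → 0 ≤ C → 0 < ε → 0 < θ →
    ∃ r₀ : ℕ, 2 ≤ r₀ ∧ ∀ r : ℕ, r₀ ≤ r → ∀ᶠ X : ℕ in atTop, ∀ N : ℕ,
      2 * (N : ℝ) ≤ (X : ℝ) ^ E → ∀ Z Y : ℕ, (X : ℝ) ^ θ ≤ Y → Z + Y + X ≤ 2 * N →
      v / Real.log X ^ 2 ≤ W X r N ∧
      (∀ H : Finset ℕ, H.card ≤ k → (∀ h ∈ H, h ≤ X) →
        (|(parts X r N H Z Y : ℝ) - Y * density X r N H| ≤ ε * (Y * density X r N H)) ∧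
        (∀ (T : ℕ) (A : Finset ℕ), T ≤ X → (T * W X r N ≤ C ∨ ∀ j ∈ A, j < l) →
          |(partsWith X r N H T A Z Y : ℝ) - Y * density X r N H * poisson (T * W X r N) A| ≤
            ε * (Y * density X r N H)) ∧
        (0 ∈ H → H.sup id * W X r N ≤ C →
          |(consecutive X r N H Z Y : ℝ) -
            Y * density X r N H * Real.exp (-((H.sup id : ℕ) * W X r N))| ≤
            ε * (Y * density X r N H * Real.exp (-((H.sup id : ℕ) * W X r N))))) ∧
      (∀ d : ℕ, 2 ∣ d → 3 ∣ d * N → 0 < density X r N {0, d}) := by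
  obtain ⟨v, hv, hVlow⟩ := V_lower_unif 2
  refine ⟨v, hv, ?_⟩
  intro k l E C ε θ hE hC hε hθ
  obtain ⟨ε0, hε0⟩ : ∃ ε0 : ℝ, ε0 = min ε 1 * Real.exp (-C) := ⟨_, rfl⟩
  have hexpC : Real.exp (-C) ≤ 1 := by
    rw [Real.exp_le_one_iff]
    linarith
  have hexpC0 := Real.exp_pos (-C)
  have hm0 : 0 < min ε 1 := by positivity
  have hε00 : 0 < ε0 := by rw [hε0]; positivity
  have hε01 : ε0 ≤ 1 := by
    have := min_le_right ε 1
    rw [hε0]
    nlinarith
  have hε0ε : ε0 ≤ ε := by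
    have := min_le_left ε 1
    rw [hε0]
    nlinarith
  obtain ⟨C1, hC10, hC1⟩ := poisson_small l (ε0 / 4) (by positivity)
  obtain ⟨C2, hC2⟩ : ∃ C2, C2 = max C (C1 + 1) := ⟨_, rfl⟩
  have hC20 : 0 ≤ C2 := by
    rw [hC2]
    exact hC.trans (le_max_left _ _)
  obtain ⟨r0, hr02, hlaw⟩ := gold_lawR k E C2 (ε0 / 4) θ
    hE hC20 (by positivity) (by linarith) hθ
  refine ⟨r0, hr02, fun r hr => ?_⟩
  have hr2 : 2 ≤ r := hr02.trans hr
  have hrr : (2 : ℝ) ≤ r := by exact_mod_cast hr2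
  have hpow : Tendsto (fun X : ℕ => (X : ℝ) ^ (1 / (r : ℝ))) atTop atTop :=
    (tendsto_rpow_atTop (by positivity)).comp tendsto_natCast_atTop_atTop
  have hlogs : ∀ᶠ X : ℕ in atTop, C2 / v * Real.log X ^ 2 ≤ X := by
    have h := ((Real.isLittleO_pow_log_id_atTop (n := 2)).comp_tendsto
      (tendsto_natCast_atTop_atTop (R := ℝ))).def (show (0 : ℝ) < 1 / (C2 / v + 1) by positivity)
    filter_upwards [h, eventually_ge_atTop 1] with X h1 h2
    simp only [Function.comp_apply, id] at h1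
    have h3 : 0 ≤ Real.log (X : ℝ) ^ 2 := by positivity
    rw [Real.norm_of_nonneg h3, Real.norm_of_nonneg (Nat.cast_nonneg _)] at h1
    have h4 : 0 ≤ C2 / v := by positivity
    calc C2 / v * Real.log X ^ 2 ≤ (C2 / v + 1) * Real.log X ^ 2 := by nlinarith
      _ ≤ (C2 / v + 1) * (1 / (C2 / v + 1) * X) := mul_le_mul_of_nonneg_left h1 (by positivity)
      _ = X := by field_simp
  filter_upwards [hlaw r hr, eventually_ge_atTop 3,
    hpow.eventually_ge_atTop 2, hlogs] with X h1 hX3 hX4 hX5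
  intro N hNE Z Y hY hZY
  obtain ⟨l', hl'⟩ : ∃ l', l' = Real.log X := ⟨_, rfl⟩
  have hX1 : (1 : ℝ) ≤ X := by exact_mod_cast (by omega : 1 ≤ X)
  have hX3r : (3 : ℝ) ≤ X := by exact_mod_cast hX3
  have hl0 : 0 < l' := by
    rw [hl']
    exact Real.log_pos (by linarith)
  have hN2 : 2 ∣ 2 * N := dvd_mul_right 2 N
  have hWpos : 0 < W X r N := by
    rw [W_eq]
    exact Vq_pos _ (QG_adm (2 * N) hN2) _
  have hY1 : (1 : ℝ) ≤ Y := (Real.one_le_rpow hX1 hθ.le).trans hY
  have hY1n : 1 ≤ Y := by exact_mod_cast hY1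
  have hY0 : 0 < (Y : ℝ) := by linarith
  have hNX : X + 1 ≤ 2 * N := by omega
  have hNE' : ((2 * N : ℕ) : ℝ) ≤ (X : ℝ) ^ E := by
    push_cast
    exact hNE
  -- small windows are shorter than X
  have hWlow : v / l' ^ 2 ≤ W X r N := by
    have hy2 : 2 ≤ ⌊(X : ℝ) ^ (1 / (r : ℝ))⌋₊ := Nat.le_floor (by exact_mod_cast hX4)
    rw [W_eq]
    refine le_trans ?_ (hVlow (QG (2 * N)) (QG_perB (2 * N)) (QG_adm (2 * N) hN2) _ hy2)
    have hy2r : (2 : ℝ) ≤ (⌊(X : ℝ) ^ (1 / (r : ℝ))⌋₊ : ℝ) := by exact_mod_cast hy2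
    have hly : 0 < Real.log (⌊(X : ℝ) ^ (1 / (r : ℝ))⌋₊ : ℝ) := Real.log_pos (by linarith)
    apply div_le_div_of_nonneg_left hv.le (by positivity)
    apply pow_le_pow_left₀ hly.le
    rw [hl']
    apply Real.log_le_log (by linarith)
    calc (⌊(X : ℝ) ^ (1 / (r : ℝ))⌋₊ : ℝ) ≤ (X : ℝ) ^ (1 / (r : ℝ)) :=
          Nat.floor_le (by positivity)
      _ ≤ (X : ℝ) ^ (1 : ℝ) := by
          apply Real.rpow_le_rpow_of_exponent_le hX1
          rw [div_le_one (by linarith)]
          linarith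
      _ = X := Real.rpow_one _
  have hTX : ∀ T : ℕ, T * W X r N ≤ C2 → T ≤ X := by
    intro T hT
    have h5 : (T : ℝ) * (v / l' ^ 2) ≤ C2 :=
      (mul_le_mul_of_nonneg_left hWlow (Nat.cast_nonneg _)).trans hT
    have h6 : (T : ℝ) ≤ C2 / v * l' ^ 2 := by
      rw [← mul_div_assoc, div_le_iff₀ (by positivity)] at h5
      rw [div_mul_eq_mul_div, le_div_iff₀ hv]
      exact h5
    rw [← hl'] at hX5
    exact_mod_cast h6.trans hX5
  -- the general statement
  have gen : ∀ H : Finset ℕ, H.card ≤ k → (∀ h ∈ H, h ≤ X) →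
      |(parts X r N H Z Y : ℝ) - Y * density X r N H| ≤ ε0 * (Y * density X r N H) ∧
      (∀ (T : ℕ) (A : Finset ℕ), T ≤ X → (T * W X r N ≤ C ∨ ∀ j ∈ A, j < l) →
        |(partsWith X r N H T A Z Y : ℝ) - Y * density X r N H * poisson (T * W X r N) A| ≤
          ε0 * (Y * density X r N H)) := by
    intro H hH hHX
    obtain ⟨h3, h4⟩ := h1 (2 * N) hN2 hNX hNE' Z Y hY H hH hHX
    rw [← parts_eq X r N H Z Y (by omega) hHX] at h3
    simp only [← density_eq, ← W_eq] at h3 h4
    obtain ⟨D, hD⟩ : ∃ D, D = Y * density X r N H := ⟨_, rfl⟩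
    have hD0 : 0 ≤ D := by
      have := Vq_nonneg (QH (QG (2 * N)) H) ⌊(X : ℝ) ^ (1 / (r : ℝ))⌋₊
      rw [hD, density_eq]
      positivity
    rw [← hD] at h3 h4 ⊢
    have h4' : ∀ T : ℕ, T * W X r N ≤ C2 → ∀ A : Finset ℕ,
        |(partsWith X r N H T A Z Y : ℝ) - D * poisson (T * W X r N) A| ≤ ε0 / 4 * D := by
      intro T hT A
      have h5 := h4 T hT A
      rw [← partsWith_eq X r N H T A Z Y (by omega) hHX (hTX T hT)] at h5
      exact h5
    have heD0 : 0 ≤ ε0 * D := by positivity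
    refine ⟨h3.trans (by linarith), ?_⟩
    intro T A _ hTA
    by_cases hTs : (T : ℝ) * W X r N ≤ C2
    · exact (h4' T hTs A).trans (by linarith)
    · rw [not_le] at hTs
      have hA : ∀ j ∈ A, j < l := by
        rcases hTA with h5 | h5
        · have := le_max_left C (C1 + 1)
          rw [← hC2] at this
          linarith
        · exact h5
      obtain ⟨T1, hT1⟩ : ∃ T1 : ℕ, T1 = ⌈C1 / W X r N⌉₊ := ⟨_, rfl⟩
      have a1 : C1 ≤ T1 * W X r N := by
        rw [← div_le_iff₀ hWpos, hT1]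
        exact Nat.le_ceil _
      have hW1 : W X r N ≤ 1 := by
        rw [W_eq]
        exact Vq_le_one _ _
      have a2 : T1 * W X r N ≤ C1 + 1 := by
        have h5 : (T1 : ℝ) < C1 / W X r N + 1 := by
          rw [hT1]
          exact Nat.ceil_lt_add_one (by positivity)
        have h6 : (T1 : ℝ) * W X r N < (C1 / W X r N + 1) * W X r N :=
          mul_lt_mul_of_pos_right h5 hWpos
        rw [add_mul, div_mul_cancel₀ _ hWpos.ne', one_mul] at h6
        linarith
      have hC1C2 : C1 + 1 ≤ C2 := by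
        rw [hC2]
        exact le_max_right _ _
      have a3 : T1 ≤ T := by
        by_contra hcon
        rw [not_le] at hcon
        have h5 : (T : ℝ) ≤ T1 := by exact_mod_cast hcon.le
        have h6 := mul_le_mul_of_nonneg_right h5 hWpos.le
        linarith
      have b1 := with_mono X r N H T1 T l A Z Y a3 hA
      have b2 := h4' T1 (a2.trans hC1C2) (range l)
      have b3 := hC1 _ a1
      have b4 : (partsWith X r N H T A Z Y : ℝ) ≤ partsWith X r N H T1 (range l) Z Y := by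
        exact_mod_cast b1
      obtain ⟨b5, b6⟩ := abs_le.1 b2
      have b7 : D * poisson (T1 * W X r N) (range l) ≤ D * (ε0 / 4) :=
        mul_le_mul_of_nonneg_left b3 hD0
      have hTV : 0 ≤ (T : ℝ) * W X r N := by positivity
      obtain ⟨c1, c2⟩ := poisson_le (T * W X r N) hTV l A hA
      have c3 := hC1 (T * W X r N) (by linarith)
      have c4 : D * poisson (T * W X r N) A ≤ D * (ε0 / 4) :=
        mul_le_mul_of_nonneg_left (c2.trans c3) hD0
      have c5 : 0 ≤ D * poisson (T * W X r N) A := mul_nonneg hD0 c1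
      have c6 : (0 : ℝ) ≤ partsWith X r N H T A Z Y := Nat.cast_nonneg _
      rw [abs_le]
      constructor <;> linarith
  have hDn : ∀ H : Finset ℕ, 0 ≤ Y * density X r N H := by
    intro H
    have := Vq_nonneg (QH (QG (2 * N)) H) ⌊(X : ℝ) ^ (1 / (r : ℝ))⌋₊
    rw [density_eq]
    positivity
  refine ⟨by rw [← hl']; exact hWlow, ?_, ?_⟩
  · intro H hH hHX
    obtain ⟨g1, g2⟩ := gen H hH hHX
    have hle := mul_le_mul_of_nonneg_right hε0ε (hDn H)
    refine ⟨g1.trans hle, fun T A hTx hTA => (g2 T A hTx hTA).trans hle, ?_⟩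
    intro h0 hTC
    obtain ⟨T, hT⟩ : ∃ T : ℕ, T = H.sup id := ⟨_, rfl⟩
    rw [consecutive_eq X r N H h0 Z Y, ← hT]
    rw [← hT] at hTC
    have hTX' : T ≤ X := by
      rw [hT]
      exact Finset.sup_le fun h hh => hHX h hh
    have h5 := g2 T {0} hTX' (Or.inl hTC)
    rw [poisson_zero] at h5
    refine h5.trans ?_
    have h6 : Real.exp (-C) ≤ Real.exp (-(T * W X r N)) := Real.exp_le_exp.2 (by linarith)
    have h7 : ε0 ≤ ε * Real.exp (-(T * W X r N)) := by
      rw [hε0]
      exact mul_le_mul (min_le_left _ _) h6 hexpC0.le hε.le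
    calc ε0 * (Y * density X r N H) ≤
          ε * Real.exp (-(T * W X r N)) * (Y * density X r N H) :=
            mul_le_mul_of_nonneg_right h7 (hDn _)
      _ = _ := by ring
  · intro d hd2 hd3
    rw [density_eq]
    apply Vq_pos
    intro p hp
    rw [nu_eq N _ p hp]
    exact pair_adm N d hd2 hd3 p hp

end Pool.Agent.Results.MP_b5e119_nt.ConsecutivePartitions
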