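import Pool.Agent.X32.Dev.FinA

/-!
# The gcd recursion for Goldbach pairs: typical and large deviations of `g_N` from `N`

(1) `g_N ≤ N - P` if `N` is composite with least prime factor `P` (so `g_N ≤ N - √N` for `N = P ^ 2`). (2) In every
interval `(X, X + Y]` with `X ≥ Y` and `Y` large at least `Y / log Y` of the `N` have `N - g_N ≥ Y ^ c`. (3) For
`y₀ ≤ y ≤ √X / 8` at least `κ X / (log X log y)` of the `N ≤ X` have `N - g_N ≥ y`. (4) In every interval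
`(X, X + Y]` with `X ≥ Y` and `Y` large at most `C (1 + H / log Y) Y / log Y` of the `N` have `N - g_N < H`; so
`N - g_N` is at least `(log N) ^ 2 / ψ(N)` for almost all `N`, for every `ψ` that tends to infinity.
-/

set_option autoImplicit false

namespace Pool.Agent.Results.MP_b5e119_nt.LargeDeviations

open Finset

/-- For the recursion of the problem with the parameter `N` the first zero `g` satisfies `g + H ≤ N`. -/
def Far (N : ℕ) (H : ℝ) : Prop :=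
  ∀ a : ℕ → ℤ, a 1 = (N : ℤ) - 2 →
    (∀ n : ℕ, 2 ≤ n → a n = a (n - 1) -
      ((Int.gcd (a (n - 1)) ((N : ℤ) - (-1) ^ n * ((N : ℤ) - n)) : ℕ) : ℤ)) →
    ∀ g : ℕ, IsLeast {n : ℕ | 2 ≤ n ∧ a n = 0} g → (g : ℝ) + H ≤ N

open Classical in
theorem result :
    (∀ N : ℕ, 3 ≤ N → ¬ N.Prime → Far N N.minFac) ∧
    (∃ c : ℝ, 0 < c ∧ ∃ Y₀ : ℕ, ∀ Y X : ℕ, Y₀ ≤ Y → Y ≤ X →
      (Y : ℝ) / Real.log Y ≤ (((Ioc X (X + Y)).filter (fun N : ℕ => Far N ((Y : ℝ) ^ c))).card : ℝ)) ∧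
    (∃ κ : ℝ, 0 < κ ∧ ∃ y₀ : ℕ, ∀ y X : ℕ, y₀ ≤ y → 64 * y ^ 2 ≤ X →
      κ * X / (Real.log X * Real.log y) ≤ (((Icc 3 X).filter (fun N : ℕ => Far N y)).card : ℝ)) ∧
    (∃ C : ℝ, 0 < C ∧ ∃ Y₀ : ℕ, ∀ Y X : ℕ, Y₀ ≤ Y → Y ≤ X → ∀ H : ℝ, 1 ≤ H →
      (((Ioc X (X + Y)).filter (fun N : ℕ => ¬ Far N H)).card : ℝ) ≤
        C * (1 + H / Real.log Y) * Y / Real.log Y) := by
  refine ⟨Pool.Agent.X32.Dev.farA_minFac, ?_, ?_, ?_⟩
  · obtain ⟨c, hc, Y₀, h⟩ := Pool.Agent.X32.Dev.many_rough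
    refine ⟨c, hc, max Y₀ 3, fun Y X hY hYX => ?_⟩
    have hY3 : 3 ≤ Y := (le_max_right _ _).trans hY
    refine (h Y X ((le_max_left _ _).trans hY) hYX).trans ?_
    rw [Nat.cast_le]
    apply card_le_card
    intro N hN
    rw [mem_filter, mem_Ioc] at hN ⊢
    refine ⟨hN.1, fun a h1 h2 g hg => ?_⟩
    have h3 := Pool.Agent.X32.Dev.farA_minFac N (by omega) hN.2.1 a h1 h2 g hg
    linarith [hN.2.2]
  · obtain ⟨κ, hκ, y₀, h⟩ := Pool.Agent.X32.Dev.many_semi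
    refine ⟨κ, hκ, y₀, fun y X hy hyX => ?_⟩
    refine (h y X hy hyX).trans ?_
    rw [Nat.cast_le]
    apply card_le_card
    intro N hN
    rw [mem_filter, mem_Icc] at hN ⊢
    obtain ⟨⟨h1, h2⟩, h3, h4, h5⟩ := hN
    refine ⟨⟨h3, h2⟩, fun a ha1 ha2 g hg => ?_⟩
    have h6 := Pool.Agent.X32.Dev.farA_minFac N h3 h4 a ha1 ha2 g hg
    have h7 : (y : ℝ) ≤ N.minFac := by exact_mod_cast h5
    linarith
  · obtain ⟨C, hC, Y₀, h⟩ := Pool.Agent.X32.Dev.typicalA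
    refine ⟨C, hC, Y₀, fun Y X hY hYX H hH => ?_⟩
    exact h Y X hY hYX H hH _ (filter_subset _ _) (fun N hN => (mem_filter.1 hN).2)

end Pool.Agent.Results.MP_b5e119_nt.LargeDeviations
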