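import Mathlib
import Pool.Agent.X34.E.E43
import Pool.Agent.X34.E.E4

/-!
# The gcd recursion for Goldbach pairs: composite `N` with many nontrivial gcds, right order of magnitude

For every `r` there is `C` such that at least `c X / (log X) ^ 45` of the integers `N ≤ X` are odd and composite, the
recursion ends at `g_N ≥ N - C`, the numbers `g_N + 1` and `2 N - g_N - 1` are distinct primes, and at least `r` of the
gcds are nontrivial. For a positive proportion of the `x ≤ X`, all windows around `x` of length between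
`K (log X) ^ 45` and `x / 2` contain the same proportion of such `N`.
-/

set_option autoImplicit false

open Filter

namespace Pool.Agent.Results.MP_b5e119_nt.RightOrderFamily

/-- `N` is odd and composite, and the recursion started at `N` ends at an index `g` with `N - C ≤ g < N - 1` for which
`g + 1` and `2 N - g - 1` are primes, at least `r` of its gcds being different from `1` -/
def ManySteps (r C N : ℕ) : Prop :=
  ¬ N.Prime ∧ Odd N ∧ ∀ a : ℕ → ℤ, a 1 = (N : ℤ) - 2 →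
    (∀ n : ℕ, 2 ≤ n → a n = a (n - 1) -
      ((Int.gcd (a (n - 1)) ((N : ℤ) - (-1 : ℤ) ^ n * ((N : ℤ) - (n : ℤ))) : ℕ) : ℤ)) →
    ∃ g : ℕ, IsLeast {n : ℕ | 2 ≤ n ∧ a n = 0} g ∧ Nat.Prime (g + 1) ∧ Nat.Prime (2 * N - g - 1) ∧
      g + 1 < N ∧ N ≤ g + C ∧
      r ≤ ((Finset.Icc 2 g).filter (fun n => Int.gcd (a (n - 1))
        ((N : ℤ) - (-1 : ℤ) ^ n * ((N : ℤ) - (n : ℤ))) ≠ 1)).card

theorem result (r : ℕ) : ∃ (C M : ℕ) (c K κ : ℝ), 0 < c ∧ 0 < K ∧ 0 < κ ∧
    (∀ᶠ X : ℕ in atTop, c * (X / Real.log X ^ 45) ≤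
      (Set.ncard {N : ℕ | 1 ≤ N ∧ N ≤ X ∧ ManySteps r C N} : ℝ)) ∧
    ∀ᶠ X : ℕ in atTop, κ * X ≤ (Set.ncard {x : ℕ | X < x ∧ x ≤ M * X ∧
      ∀ u v : ℕ, u ≤ x → x ≤ v → K * Real.log X ^ 45 ≤ (v : ℝ) - u → 2 * ((v : ℝ) - u) ≤ x →
        c * (((v : ℝ) - u) / Real.log X ^ 45) ≤
          (Set.ncard {N : ℕ | u < N ∧ N ≤ v ∧ ManySteps r C N} : ℝ)} : ℝ) :=
  Pool.Agent.X34.E.gcd_count Pool.Agent.X34.E.dhl45R r

end Pool.Agent.Results.MP_b5e119_nt.RightOrderFamily
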