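import Mathlib
import Pool.Agent.X58.IV.Win

set_option autoImplicit false

/-!
# Patterns of partitions `2 N = (N - h) + (N + h)` into almost primes, `h` in a short window

Let `S` be an arbitrary admissible set of at most `k` integers (for instance `S = {0}`) and `(A, A + X]` an
arbitrary window of length `X ≥ N ^ θ` such that all `h = n + s`, `n` in the window, `s ∈ S`, satisfy
`1 ≤ h ≤ N - 2`.  The number of the `n` of the window for which ALL the numbers `N - h` and `N + h`,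
`h = n + s`, `s ∈ S`, are products of at most `2 t` primes, all of them `> N ^ (1 / t)`, has the conjectured
order of magnitude of the number of the `n` for which they are prime, and every subset of positive relative
density contains arithmetic progressions of any length `l` with differences `≤ (log N) ^ B`.
(If `g = g_N` is the index of the question and `h = N - 1 - g`, then `g + 1 = N - h`, `2 N - g - 1 = N + h`.)
-/

namespace Pool.Agent.Results.MP_b5e119_nt.SymmetricPatterns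

open Finset Pool.Agent.X58.IV

/-- the product of the summands of the partitions `2 N = (N - h) + (N + h)`, `h = n + s`, `s ∈ S` -/
def P (N : ℕ) (S : Finset ℤ) (n : ℤ) : ℤ := ∏ s ∈ S, ((N - (n + s)) * (N + (n + s)))

/-- no prime divides all the products -/
def Admissible (N : ℕ) (S : Finset ℤ) : Prop :=
  ∀ p : ℕ, p.Prime → ∃ n : ℕ, ¬ (p : ℤ) ∣ P N S n

/-- the number of the classes `n` modulo `p` with `p ∣ P N S n` -/
noncomputable def omega (N : ℕ) (S : Finset ℤ) (p : ℕ) : ℕ :=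
  ((range p).filter (fun n : ℕ => (p : ℤ) ∣ P N S n)).card

/-- the product of the local densities `1 - omega N S p / p` over the primes `p ≤ Y` -/
noncomputable def V (N : ℕ) (S : Finset ℤ) (Y : ℕ) : ℝ :=
  ∏ p ∈ (Icc 1 Y).filter Nat.Prime, (1 - (omega N S p : ℝ) / p)

open Classical in
/-- the `n` of `(A, A + X]` for which all numbers `N - h` and `N + h`, `h = n + s`, `s ∈ S`, are
products of at most `2 t` primes, all of them `> N ^ (1 / t)` -/
noncomputable def Good (S : Finset ℤ) (t N A X : ℕ) : Finset ℕ :=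
  (Ioc A (A + X)).filter (fun n : ℕ => ∀ s ∈ S,
    Almost (2 * t) ((N : ℝ) ^ (1 / (t : ℝ))) ((N : ℤ) - ((n : ℤ) + s)) ∧
    Almost (2 * t) ((N : ℝ) ^ (1 / (t : ℝ))) ((N : ℤ) + ((n : ℤ) + s)))

/-- the linear forms -/
def FF (N : ℕ) (S : Finset ℤ) : Finset (ℤ × ℤ) :=
  S.image (fun s => ((-1 : ℤ), (N : ℤ) - s)) ∪ S.image (fun s => ((1 : ℤ), (N : ℤ) + s))

lemma e1 (N : ℕ) (n s : ℤ) : -1 * n + ((N : ℤ) - s) = N - (n + s) := by ring

lemma e2 (N : ℕ) (n s : ℤ) : 1 * n + ((N : ℤ) + s) = N + (n + s) := by ring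

lemma dvd_iff (N : ℕ) (S : Finset ℤ) {p : ℕ} (hp : p.Prime) (n : ℕ) :
    (∃ L ∈ FF N S, (p : ℤ) ∣ L.1 * (n : ℤ) + L.2) ↔ (p : ℤ) ∣ P N S n := by
  have hp' : Prime (p : ℤ) := Nat.prime_iff_prime_int.1 hp
  unfold P
  rw [Prime.dvd_finsetProd_iff hp']
  constructor
  · rintro ⟨L, hL, hd⟩
    rcases mem_union.1 hL with h | h
    · obtain ⟨s, hs, rfl⟩ := mem_image.1 h
      refine ⟨s, hs, ?_⟩
      rw [e1] at hd
      exact hd.mul_right _
    · obtain ⟨s, hs, rfl⟩ := mem_image.1 h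
      refine ⟨s, hs, ?_⟩
      rw [e2] at hd
      exact hd.mul_left _
  · rintro ⟨s, hs, hd⟩
    rcases hp'.dvd_or_dvd hd with h | h
    · refine ⟨_, mem_union_left _ (mem_image_of_mem _ hs), ?_⟩
      rw [e1]; exact h
    · refine ⟨_, mem_union_right _ (mem_image_of_mem _ hs), ?_⟩
      rw [e2]; exact h

/-- the partitions `2 N = (N - n) + (N + n)` -/
lemma adm_zero (N : ℕ) : Admissible N {0} := by
  intro p hp
  have hp' : Prime (p : ℤ) := Nat.prime_iff_prime_int.1 hp
  by_cases h : (p : ℤ) ∣ N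
  · refine ⟨1, fun hd => ?_⟩
    simp only [P, prod_singleton, add_zero] at hd
    have h2 : (p : ℤ) ∣ (N : ℤ) * N - 1 := by
      have e : ((N : ℤ) - ((1 : ℕ) : ℤ)) * ((N : ℤ) + ((1 : ℕ) : ℤ)) = (N : ℤ) * N - 1 := by
        push_cast; ring
      rwa [e] at hd
    have h3 : (p : ℤ) ∣ 1 := (dvd_sub_right (h.mul_right _)).1 h2
    exact hp'.not_dvd_one h3
  · refine ⟨0, fun hd => ?_⟩
    simp only [P, prod_singleton, add_zero] at hd
    rcases hp'.dvd_or_dvd hd with h2 | h2
    · exact h (by simpa using h2)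
    · exact h (by simpa using h2)

theorem result : (∀ N : ℕ, Admissible N {0}) ∧
    ∀ (k : ℕ) (θ : ℝ), 0 < θ → ∃ (t₀ : ℕ) (c : ℝ), 1 ≤ t₀ ∧ 0 < c ∧
    ∀ t : ℕ, t₀ ≤ t → ∃ C : ℝ, 0 < C ∧ ∀ (l : ℕ) (ρ : ℝ), 0 < ρ → ∃ B N₀ : ℕ, ∀ N A X : ℕ, N₀ ≤ N →
      (N : ℝ) ^ θ ≤ X → ∀ S : Finset ℤ, S.Nonempty → S.card ≤ k → Admissible N S →
      (∀ s ∈ S, 0 ≤ A + s ∧ (A : ℤ) + X + s ≤ N - 2) →
      c / Real.log N ^ (2 * k) ≤ V N S N ∧
      c * X * V N S N ≤ ((Good S t N A X).card : ℝ) ∧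
      ((Good S t N A X).card : ℝ) ≤ C * X * V N S N ∧
      ∀ U ⊆ Good S t N A X, ρ * ((Good S t N A X).card : ℝ) ≤ U.card →
        ∃ a d : ℕ, 1 ≤ d ∧ (d : ℝ) ≤ Real.log N ^ B ∧ ∀ j < l, a + j * d ∈ U := by
  classical
  refine ⟨adm_zero, fun k θ hθ => ?_⟩
  obtain ⟨t₀, c, ht₀, hc, hV, h⟩ := window (2 * k) 2 θ hθ
  refine ⟨t₀, c, ht₀, hc, fun t ht => ?_⟩
  obtain ⟨C, hC, h2⟩ := h t ht
  refine ⟨C, hC, fun m ρ hρ => ?_⟩
  obtain ⟨B, N₀, h3⟩ := h2 m ρ hρ
  refine ⟨B, max N₀ 8, fun N A X hN hX S hS0 hS hadm hval => ?_⟩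
  have hN8 : 8 ≤ N := (le_max_right _ _).trans hN
  have hNN : N₀ ≤ N := (le_max_left N₀ 8).trans hN
  have hNp : (0 : ℝ) < N := by exact_mod_cast (by omega : 0 < N)
  have hXN : X ≤ N := by
    obtain ⟨s, hs⟩ := hS0
    have := hval s hs
    omega
  have hcardF : (FF N S).card ≤ 2 * k := by
    refine (card_union_le _ _).trans ?_
    have h4 := card_image_le (s := S) (f := fun s => ((-1 : ℤ), (N : ℤ) - s))
    have h5 := card_image_le (s := S) (f := fun s => ((1 : ℤ), (N : ℤ) + s))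
    omega
  have hcop : ∀ L ∈ FF N S, IsCoprime L.1 L.2 := by
    intro L hL
    rcases mem_union.1 hL with h | h
    · obtain ⟨s, _, rfl⟩ := mem_image.1 h
      exact isCoprime_one_left.neg_left
    · obtain ⟨s, _, rfl⟩ := mem_image.1 h
      exact isCoprime_one_left
  have hloc : Locally (FF N S) := by
    intro p hp
    obtain ⟨n, hn⟩ := hadm p hp
    exact ⟨n, fun L hL hd => hn ((dvd_iff N S hp n).1 ⟨L, hL, hd⟩)⟩
  have hvol : Vol (FF N S) N = V N S N := by
    unfold Vol V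
    have : (Icc 1 N : Finset ℕ) = Ioc 0 N := by
      ext n; rw [mem_Icc, mem_Ioc]; omega
    rw [this]
    apply prod_congr rfl
    intro p hp
    have hpp := (mem_filter.1 hp).2
    have : om (FF N S) p = omega N S p := by
      unfold om omega ZF
      congr 1
      apply filter_congr
      intro n _
      exact dvd_iff N S hpp n
    rw [this]
  have hwin : Win (FF N S) 2 t N A X = Good S t N A X := by
    unfold Win Good
    apply filter_congr
    intro n _
    constructor
    · intro h s hs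
      have h6 := h _ (mem_union_left _ (mem_image_of_mem _ hs))
      have h7 := h _ (mem_union_right _ (mem_image_of_mem _ hs))
      simp only at h6 h7
      rw [e1] at h6
      rw [e2] at h7
      exact ⟨h6, h7⟩
    · intro h L hL
      rcases mem_union.1 hL with h8 | h8
      · obtain ⟨s, hs, rfl⟩ := mem_image.1 h8
        simp only
        rw [e1]
        exact (h s hs).1
      · obtain ⟨s, hs, rfl⟩ := mem_image.1 h8
        simp only
        rw [e2]
        exact (h s hs).2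
  have hb := hV (FF N S) hcardF hcop hloc N (by omega)
  have hm := h3 N A X hNN hX hXN (FF N S) hcardF hcop hloc (by
    intro L hL n hn1 hn2
    have hn1' : (A : ℤ) < n := by exact_mod_cast hn1
    have hn2' : (n : ℤ) ≤ A + X := by exact_mod_cast hn2
    have hNZ : (8 : ℤ) ≤ N := by exact_mod_cast hN8
    have hsq : (2 : ℤ) * N ≤ (N : ℤ) ^ 2 := by nlinarith
    rcases mem_union.1 hL with h8 | h8
    · obtain ⟨s, hs, rfl⟩ := mem_image.1 h8
      obtain ⟨h9, h10⟩ := hval s hs
      simp only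
      constructor <;> linarith
    · obtain ⟨s, hs, rfl⟩ := mem_image.1 h8
      obtain ⟨h9, h10⟩ := hval s hs
      simp only
      constructor <;> linarith)
  rw [hvol] at hb hm
  rw [hwin] at hm
  refine ⟨hb, hm.1, hm.2.1, fun U hU hUc => ?_⟩
  obtain ⟨a, d, h1, h2, h3⟩ := hm.2.2 U hU hUc
  exact ⟨a, d, h1, h2, h3⟩

end Pool.Agent.Results.MP_b5e119_nt.SymmetricPatterns
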